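import Mathlib

/-!
# A finite set of integers with `|A| |A+2·A| > |A+A|^2`
-/

open scoped ENNReal
open Finset

namespace Pool.Agent.Results.MP_288d1b_co.DilateExponent

/-- `‖α‖`, the sum of all values of `α : ℤ → [0,1]` (values are taken in `[0,∞]`). -/
noncomputable def mass (α : ℤ → ℝ≥0∞) : ℝ≥0∞ := ∑' i : ℤ, α i

/-- `‖α + m·α‖`: the infimum over `0 < p < 1` of the sum over `i : ℤ` of the `p`-th power of
the sum of `α j * α k` over all pairs `(j, k)` with `j + m * k = i`. -/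
noncomputable def dsize (α : ℤ → ℝ≥0∞) (m : ℤ) : ℝ≥0∞ :=
  ⨅ p : Set.Ioo (0 : ℝ) 1,
    ∑' i : ℤ, (∑' q : {q : ℤ × ℤ // q.1 + m * q.2 = i}, α q.1.1 * α q.1.2) ^ (p : ℝ)

/-- The indicator function of a finite set of integers. -/
noncomputable def ind (A : Finset ℤ) (i : ℤ) : ℝ≥0∞ := if i ∈ A then 1 else 0

/-- The set `A + m·B = {a + m b : a ∈ A, b ∈ B}`. -/
def dl (m : ℤ) (A B : Finset ℤ) : Finset ℤ := image₂ (fun a b => a + m * b) A B

theorem mem_dl {m : ℤ} {A B : Finset ℤ} {x : ℤ} :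
    x ∈ dl m A B ↔ ∃ a ∈ A, ∃ b ∈ B, a + m * b = x := by
  unfold dl; simp [mem_image₂]

/-! ### From functions to sets -/

theorem mass_ind (A : Finset ℤ) : mass (ind A) = (A.card : ℝ≥0∞) := by
  unfold mass
  rw [tsum_eq_sum (s := A)]
  · rw [Finset.sum_congr rfl (g := fun _ => (1 : ℝ≥0∞))]
    · simp
    · intro i hi; simp [ind, hi]
  · intro i hi; simp [ind, hi]

theorem ind_le_one (A : Finset ℤ) (i : ℤ) : ind A i ≤ 1 := by
  unfold ind; split_ifs <;> simp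

theorem rep_le (A : Finset ℤ) (m i : ℤ) :
    (∑' q : {q : ℤ × ℤ // q.1 + m * q.2 = i}, ind A q.1.1 * ind A q.1.2) ≤
      (A.card : ℝ≥0∞) * (A.card : ℝ≥0∞) := by
  have h1 : (∑' q : {q : ℤ × ℤ // q.1 + m * q.2 = i}, ind A q.1.1 * ind A q.1.2) ≤
      ∑' q : ℤ × ℤ, ind A q.1 * ind A q.2 :=
    ENNReal.tsum_comp_le_tsum_of_injective (f := fun q : {q : ℤ × ℤ // q.1 + m * q.2 = i} => q.1)
      Subtype.val_injective (fun q : ℤ × ℤ => ind A q.1 * ind A q.2)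
  refine h1.trans (le_of_eq ?_)
  rw [ENNReal.tsum_prod (f := fun a b => ind A a * ind A b)]
  simp_rw [ENNReal.tsum_mul_left, ENNReal.tsum_mul_right]
  have := mass_ind A
  unfold mass at this
  rw [this]

theorem le_dsize (A : Finset ℤ) (m : ℤ) : ((dl m A A).card : ℝ≥0∞) ≤ dsize (ind A) m := by
  unfold dsize
  refine le_iInf fun p => ?_
  have h1 : ((dl m A A).card : ℝ≥0∞) = ∑ i ∈ dl m A A, (1 : ℝ≥0∞) := by simp
  rw [h1]
  refine le_trans ?_ (ENNReal.sum_le_tsum (dl m A A))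
  refine Finset.sum_le_sum fun i hi => ?_
  obtain ⟨a, ha, b, hb, hab⟩ := mem_dl.1 hi
  refine ENNReal.one_le_rpow ?_ p.2.1
  refine le_trans ?_ (ENNReal.le_tsum (⟨(a, b), hab⟩ : {q : ℤ × ℤ // q.1 + m * q.2 = i}))
  simp [ind, ha, hb]

theorem rep_zero (A : Finset ℤ) (m i : ℤ) (hi : i ∉ dl m A A) :
    (∑' q : {q : ℤ × ℤ // q.1 + m * q.2 = i}, ind A q.1.1 * ind A q.1.2) = 0 := by
  rw [ENNReal.tsum_eq_zero]
  rintro ⟨⟨a, b⟩, hab⟩
  by_contra hne
  apply hi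
  rw [mem_dl]
  refine ⟨a, ?_, b, ?_, hab⟩
  · by_contra h; apply hne; simp [ind, h]
  · by_contra h; apply hne; simp [ind, h]

theorem dsize_le_aux (A : Finset ℤ) (m : ℤ) (p : Set.Ioo (0 : ℝ) 1) :
    dsize (ind A) m ≤ ((dl m A A).card : ℝ≥0∞) * ((A.card : ℝ≥0∞) * (A.card : ℝ≥0∞)) ^ (p : ℝ) := by
  unfold dsize
  refine (iInf_le _ p).trans ?_
  rw [tsum_eq_sum (s := dl m A A)]
  · calc (∑ i ∈ dl m A A,
          (∑' q : {q : ℤ × ℤ // q.1 + m * q.2 = i}, ind A q.1.1 * ind A q.1.2) ^ (p : ℝ))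
        ≤ ∑ i ∈ dl m A A, ((A.card : ℝ≥0∞) * (A.card : ℝ≥0∞)) ^ (p : ℝ) :=
          Finset.sum_le_sum fun i _ => ENNReal.rpow_le_rpow (rep_le A m i) p.2.1.le
      _ = _ := by rw [Finset.sum_const, nsmul_eq_mul]
  · intro i hi
    rw [rep_zero A m i hi]
    exact ENNReal.zero_rpow_of_pos p.2.1

theorem tendsto_aux (N : NNReal) (hN : N ≠ 0) :
    Filter.Tendsto (fun k : ℕ => (N : ℝ≥0∞) ^ (1 / ((k : ℝ) + 2))) Filter.atTop
      (nhds (1 : ℝ≥0∞)) := by
  have hc : Filter.Tendsto (fun k : ℕ => 1 / ((k : ℝ) + 2)) Filter.atTop (nhds 0) := by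
    have h0 : Filter.Tendsto (fun k : ℕ => ((k : ℝ) + 2)) Filter.atTop Filter.atTop :=
      Filter.tendsto_atTop_add_const_right _ _ tendsto_natCast_atTop_atTop
    exact h0.inv_tendsto_atTop.congr (fun k => by simp)
  have h2 : Filter.Tendsto (fun k : ℕ => N ^ (1 / ((k : ℝ) + 2))) Filter.atTop
      (nhds (N ^ (0 : ℝ))) :=
    ((NNReal.continuousAt_rpow (x := N) (y := (0 : ℝ)) (Or.inl hN)).tendsto).comp
      (Filter.Tendsto.prodMk_nhds tendsto_const_nhds hc)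
  have h3 := (ENNReal.tendsto_coe (f := Filter.atTop) (m := fun k : ℕ => N ^ (1 / ((k : ℝ) + 2)))
    (a := N ^ (0 : ℝ))).2 h2
  have h4 : ((N ^ (0 : ℝ) : NNReal) : ℝ≥0∞) = 1 := by simp
  rw [h4] at h3
  refine Filter.Tendsto.congr ?_ h3
  intro k
  rw [ENNReal.coe_rpow_of_ne_zero hN]

theorem dsize_le (A : Finset ℤ) (m : ℤ) : dsize (ind A) m ≤ ((dl m A A).card : ℝ≥0∞) := by
  by_cases hA : A.card = 0
  · have : A = ∅ := Finset.card_eq_zero.1 hA
    subst this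
    have := dsize_le_aux ∅ m ⟨1 / 2, by norm_num, by norm_num⟩
    simpa [dl] using this
  have hA' : ((A.card : NNReal) * (A.card : NNReal)) ≠ 0 := by
    have : (A.card : NNReal) ≠ 0 := by exact_mod_cast hA
    exact mul_ne_zero this this
  have ht : Filter.Tendsto (fun k : ℕ => ((dl m A A).card : ℝ≥0∞) *
      ((((A.card : NNReal) * (A.card : NNReal) : NNReal)) : ℝ≥0∞) ^ (1 / ((k : ℝ) + 2)))
      Filter.atTop (nhds (((dl m A A).card : ℝ≥0∞) * 1)) :=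
    ENNReal.Tendsto.const_mul (tendsto_aux _ hA') (Or.inr (ENNReal.natCast_ne_top _))
  rw [mul_one] at ht
  refine ge_of_tendsto' ht fun k => ?_
  have hk : (0 : ℝ) < (k : ℝ) + 2 := by positivity
  have h5 := dsize_le_aux A m ⟨1 / ((k : ℝ) + 2), by positivity, by
    rw [div_lt_one hk]
    have : (0 : ℝ) ≤ (k : ℝ) := Nat.cast_nonneg k
    linarith⟩
  simpa using h5

theorem dsize_ind (A : Finset ℤ) (m : ℤ) : dsize (ind A) m = ((dl m A A).card : ℝ≥0∞) :=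
  le_antisymm (dsize_le A m) (le_dsize A m)

/-! ### Digit sets -/

theorem card_dl_le (m : ℤ) (A B : Finset ℤ) : (dl m A B).card ≤ A.card * B.card :=
  Finset.card_image₂_le _ _ _

theorem dl_dl (m M : ℤ) (X Y X' Y' : Finset ℤ) :
    dl m (dl M X Y) (dl M X' Y') = dl M (dl m X X') (dl m Y Y') := by
  ext z
  simp only [mem_dl]
  constructor
  · rintro ⟨_, ⟨x, hx, y, hy, rfl⟩, _, ⟨x', hx', y', hy', rfl⟩, rfl⟩
    exact ⟨_, ⟨x, hx, x', hx', rfl⟩, _, ⟨y, hy, y', hy', rfl⟩, by ring⟩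
  · rintro ⟨_, ⟨x, hx, x', hx', rfl⟩, _, ⟨y, hy, y', hy', rfl⟩, rfl⟩
    exact ⟨_, ⟨x, hx, y, hy, rfl⟩, _, ⟨x', hx', y', hy', rfl⟩, by ring⟩

theorem card_dl_eq (M : ℤ) (X Y : Finset ℤ) (hX : ∀ x ∈ X, 0 ≤ x ∧ x < M) :
    (dl M X Y).card = X.card * Y.card := by
  unfold dl
  rw [Finset.card_image₂_iff]
  rintro ⟨x, y⟩ h ⟨x', y'⟩ h' heq
  simp only [Set.mem_prod, Finset.mem_coe] at h h'
  simp only at heq
  have h1 := hX x h.1
  have h2 := hX x' h'.1
  have hM : 0 < M := lt_of_le_of_lt h1.1 h1.2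
  have hxx : x = x' := by
    have e1 : (x + M * y) % M = x := by
      rw [Int.add_mul_emod_self_left, Int.emod_eq_of_lt h1.1 h1.2]
    have e2 : (x' + M * y') % M = x' := by
      rw [Int.add_mul_emod_self_left, Int.emod_eq_of_lt h2.1 h2.2]
    rw [← e1, ← e2, heq]
  subst hxx
  have : M * y = M * y' := by linarith
  have hyy : y = y' := mul_left_cancel₀ hM.ne' this
  rw [hyy]

/-- All numbers with `k` base-`b` digits taken from `D`. -/
def pw (D : Finset ℤ) (b : ℤ) : ℕ → Finset ℤ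
  | 0 => {0}
  | k + 1 => dl b D (pw D b k)

theorem dl_zero_zero (m : ℤ) : dl m {0} {0} = {0} := by
  ext x; simp [mem_dl, eq_comm]

theorem dl_pw (m : ℤ) (D E : Finset ℤ) (b : ℤ) (k : ℕ) :
    dl m (pw D b k) (pw E b k) = pw (dl m D E) b k := by
  induction k with
  | zero => simp [pw, dl_zero_zero]
  | succ k ih => simp only [pw]; rw [dl_dl, ih]

theorem card_pw_le (D : Finset ℤ) (b : ℤ) (k : ℕ) : (pw D b k).card ≤ D.card ^ k := by
  induction k with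
  | zero => simp [pw]
  | succ k ih =>
    simp only [pw]
    calc (dl b D (pw D b k)).card ≤ D.card * (pw D b k).card := card_dl_le _ _ _
      _ ≤ D.card * D.card ^ k := Nat.mul_le_mul_left _ ih
      _ = D.card ^ (k + 1) := by ring

theorem card_pw_eq (D : Finset ℤ) (b : ℤ) (hD : ∀ x ∈ D, 0 ≤ x ∧ x < b) (k : ℕ) :
    (pw D b k).card = D.card ^ k := by
  induction k with
  | zero => simp [pw]
  | succ k ih =>
    simp only [pw]
    rw [card_dl_eq b D _ hD, ih]; ring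

theorem pw_range (D : Finset ℤ) (b : ℤ) (hD : ∀ x ∈ D, 0 ≤ x ∧ x < b) (k : ℕ) :
    ∀ x ∈ pw D b k, 0 ≤ x ∧ x < b ^ k := by
  induction k with
  | zero => intro x hx; simp [pw] at hx; subst hx; simp
  | succ k ih =>
    intro x hx
    simp only [pw, mem_dl] at hx
    obtain ⟨d, hd, y, hy, rfl⟩ := hx
    have h1 := hD d hd
    have h2 := ih y hy
    have hb : 0 < b := lt_of_le_of_lt h1.1 h1.2
    constructor
    · have := mul_nonneg hb.le h2.1
      linarith [h1.1]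
    · have h3 : y + 1 ≤ b ^ k := h2.2
      have h4 : b * (y + 1) ≤ b * b ^ k := mul_le_mul_of_nonneg_left h3 hb.le
      have h5 : b ^ (k + 1) = b * b ^ k := by ring
      rw [h5]; linarith [h1.2]

/-- `iv a = {0, 1, ..., a - 1}`. -/
noncomputable def iv (a : ℕ) : Finset ℤ := Finset.Ico 0 (a : ℤ)

theorem card_iv (a : ℕ) : (iv a).card = a := by simp [iv]

theorem mem_iv {a : ℕ} {x : ℤ} : x ∈ iv a ↔ 0 ≤ x ∧ x < a := by simp [iv]

theorem iv_add (a b : ℕ) : dl 1 (iv a) (iv b) ⊆ iv (a + b - 1) := by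
  intro x hx
  obtain ⟨u, hu, v, hv, rfl⟩ := mem_dl.1 hx
  rw [mem_iv] at *
  omega

theorem iv_two (q : ℕ) : dl 2 (iv 2) (iv q) = iv (2 * q) := by
  ext x
  simp only [mem_dl, mem_iv]
  constructor
  · rintro ⟨u, hu, v, hv, rfl⟩
    push_cast at *
    omega
  · rintro ⟨h1, h2⟩
    push_cast at h2
    exact ⟨x % 2, by push_cast; omega, x / 2, by omega, by omega⟩

theorem card_dl_pw_le (m : ℤ) (D E F : Finset ℤ) (h : dl m D E ⊆ F) (b : ℤ) (k : ℕ) :
    (dl m (pw D b k) (pw E b k)).card ≤ F.card ^ k := by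
  rw [dl_pw]
  exact (card_pw_le _ _ _).trans (Nat.pow_le_pow_left (Finset.card_le_card h) k)

theorem dl_mono {m : ℤ} {A B A' B' : Finset ℤ} (hA : A ⊆ A') (hB : B ⊆ B') :
    dl m A B ⊆ dl m A' B' := Finset.image₂_subset hA hB

theorem dl_one_comm (A B : Finset ℤ) : dl 1 A B = dl 1 B A := by
  ext x; simp only [mem_dl]
  constructor
  · rintro ⟨a, ha, b, hb, rfl⟩; exact ⟨b, hb, a, ha, by ring⟩
  · rintro ⟨a, ha, b, hb, rfl⟩; exact ⟨b, hb, a, ha, by ring⟩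

/-! ### The construction -/

theorem card3_le (m M U : ℤ) (X Y Z X' Y' Z' : Finset ℤ) :
    (dl m (dl M X (dl U Y Z)) (dl M X' (dl U Y' Z'))).card ≤
      (dl m X X').card * ((dl m Y Y').card * (dl m Z Z').card) := by
  rw [dl_dl m M, dl_dl m U]
  exact (card_dl_le _ _ _).trans (Nat.mul_le_mul_left _ (card_dl_le _ _ _))

theorem card_dl_one_range (N : ℕ) (X Y : Finset ℤ) (hX : ∀ x ∈ X, 0 ≤ x ∧ x < (N : ℤ))
    (hY : ∀ x ∈ Y, 0 ≤ x ∧ x < (N : ℤ)) : (dl 1 X Y).card ≤ 2 * N := by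
  have h : dl 1 X Y ⊆ iv (2 * N) := by
    intro z hz
    obtain ⟨x, hx, y, hy, rfl⟩ := mem_dl.1 hz
    have h1 := hX x hx
    have h2 := hY y hy
    rw [mem_iv]; push_cast; omega
  exact (Finset.card_le_card h).trans (card_iv _).le

section construction

variable (n l a q U : ℕ)

noncomputable def X1 : Finset ℤ := pw (iv 4) 4 n
noncomputable def X2 : Finset ℤ := pw (iv 2) 4 n
noncomputable def Z (c : ℕ) : Finset ℤ := pw (iv c) (2 * (q : ℤ)) l
noncomputable def A1 : Finset ℤ := dl (4 ^ n) (X1 n) (dl (U : ℤ) {0} (Z l q a))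
noncomputable def A2 : Finset ℤ := dl (4 ^ n) (X2 n) (dl (U : ℤ) (iv U) (Z l q 2))
noncomputable def A3 : Finset ℤ := dl (4 ^ n) (X2 n) (dl (U : ℤ) {0} (Z l q q))
noncomputable def AA : Finset ℤ := A1 n l a q U ∪ A2 n l q U ∪ A3 n l q U

theorem X1_range : ∀ x ∈ X1 n, 0 ≤ x ∧ x < (4 : ℤ) ^ n := by
  refine pw_range (iv 4) 4 ?_ n
  intro x hx; rw [mem_iv] at hx; push_cast at hx; exact hx

theorem X2_range : ∀ x ∈ X2 n, 0 ≤ x ∧ x < (4 : ℤ) ^ n := by
  refine pw_range (iv 2) 4 ?_ n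
  intro x hx; rw [mem_iv] at hx; push_cast at hx; omega

theorem card_X1 : (X1 n).card = 4 ^ n := by
  unfold X1
  rw [card_pw_eq, card_iv]
  intro x hx; rw [mem_iv] at hx; push_cast at hx; exact hx

theorem dl_X2_X2 : dl 2 (X2 n) (X2 n) = X1 n := by
  unfold X2 X1
  rw [dl_pw, iv_two]

theorem card_X2_X2 : (dl 1 (X2 n) (X2 n)).card ≤ 3 ^ n := by
  have := card_dl_pw_le 1 (iv 2) (iv 2) (iv 3) (iv_add 2 2) 4 n
  rwa [card_iv] at this

theorem card_Z_Z (c d : ℕ) : (dl 1 (Z l q c) (Z l q d)).card ≤ (c + d - 1) ^ l := by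
  have := card_dl_pw_le 1 (iv c) (iv d) (iv (c + d - 1)) (iv_add c d) (2 * (q : ℤ)) l
  rwa [card_iv] at this

theorem card_Z (c : ℕ) (hc : c ≤ 2 * q) : (Z l q c).card = c ^ l := by
  unfold Z
  rw [card_pw_eq, card_iv]
  intro x hx; rw [mem_iv] at hx; omega

theorem card_A1 (hU : 0 < U) (ha : a ≤ 2 * q) : (A1 n l a q U).card = 4 ^ n * a ^ l := by
  unfold A1
  rw [card_dl_eq _ _ _ (X1_range n), card_X1, card_dl_eq, card_Z l q a ha]
  · simp
  · intro x hx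
    simp only [Finset.mem_singleton] at hx
    subst hx
    exact ⟨le_refl _, by exact_mod_cast hU⟩

theorem card_A2_A3 : (dl 2 (A2 n l q U) (A3 n l q U)).card = 4 ^ n * (U * (2 * q) ^ l) := by
  unfold A2 A3
  rw [dl_dl, dl_X2_X2, dl_dl, card_dl_eq _ _ _ (X1_range n), card_X1]
  have h1 : dl 2 (iv U) {0} = iv U := by
    ext x; simp [mem_dl]
  have h2 : dl 2 (Z l q 2) (Z l q q) = Z l q (2 * q) := by
    unfold Z; rw [dl_pw, iv_two]
  rw [h1, h2, card_dl_eq, card_iv, card_Z l q (2 * q) le_rfl]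
  intro x hx; rw [mem_iv] at hx; exact hx

theorem card_AA_lower (hU : 0 < U) (ha : a ≤ 2 * q) : 4 ^ n * a ^ l ≤ (AA n l a q U).card := by
  rw [← card_A1 n l a q U hU ha]
  exact Finset.card_le_card (Finset.subset_union_left.trans Finset.subset_union_left)

theorem card_dl_AA_lower : 4 ^ n * (U * (2 * q) ^ l) ≤ (dl 2 (AA n l a q U) (AA n l a q U)).card := by
  rw [← card_A2_A3 n l q U]
  refine Finset.card_le_card (dl_mono ?_ ?_)
  · exact Finset.subset_union_right.trans Finset.subset_union_left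
  · exact Finset.subset_union_right

/-- The upper bound for `|A + A|`. -/
def ub (n l a q U : ℕ) : ℕ :=
  2 * 4 ^ n * (2 * a - 1) ^ l + 2 * 4 ^ n * (U * (a + 1) ^ l) + 2 * 4 ^ n * (a + q - 1) ^ l +
    3 ^ n * ((2 * U - 1) * 3 ^ l) + 3 ^ n * (U * (q + 1) ^ l) + 3 ^ n * (2 * q - 1) ^ l

theorem card_AA_upper : (dl 1 (AA n l a q U) (AA n l a q U)).card ≤ ub n l a q U := by
  have c11 : (dl 1 (A1 n l a q U) (A1 n l a q U)).card ≤ 2 * 4 ^ n * (2 * a - 1) ^ l := by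
    refine (card3_le _ _ _ _ _ _ _ _ _).trans ?_
    have e1 := card_dl_one_range (4 ^ n) (X1 n) (X1 n) (by simpa using X1_range n)
      (by simpa using X1_range n)
    have e2 : (dl 1 ({0} : Finset ℤ) {0}).card = 1 := by rw [dl_zero_zero]; simp
    have e3 := card_Z_Z l q a a
    rw [e2, one_mul]
    have e4 : a + a - 1 = 2 * a - 1 := by omega
    rw [e4] at e3
    exact Nat.mul_le_mul e1 e3
  have c12 : (dl 1 (A1 n l a q U) (A2 n l q U)).card ≤ 2 * 4 ^ n * (U * (a + 1) ^ l) := by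
    refine (card3_le _ _ _ _ _ _ _ _ _).trans ?_
    have e1 := card_dl_one_range (4 ^ n) (X1 n) (X2 n) (by simpa using X1_range n)
      (by simpa using X2_range n)
    have e2 : (dl 1 ({0} : Finset ℤ) (iv U)).card ≤ U := by
      refine (card_dl_le _ _ _).trans ?_
      simp [card_iv]
    have e3 := card_Z_Z l q a 2
    exact Nat.mul_le_mul e1 (Nat.mul_le_mul e2 e3)
  have c13 : (dl 1 (A1 n l a q U) (A3 n l q U)).card ≤ 2 * 4 ^ n * (a + q - 1) ^ l := by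
    refine (card3_le _ _ _ _ _ _ _ _ _).trans ?_
    have e1 := card_dl_one_range (4 ^ n) (X1 n) (X2 n) (by simpa using X1_range n)
      (by simpa using X2_range n)
    have e2 : (dl 1 ({0} : Finset ℤ) {0}).card = 1 := by rw [dl_zero_zero]; simp
    have e3 := card_Z_Z l q a q
    rw [e2, one_mul]
    exact Nat.mul_le_mul e1 e3
  have c22 : (dl 1 (A2 n l q U) (A2 n l q U)).card ≤ 3 ^ n * ((2 * U - 1) * 3 ^ l) := by
    refine (card3_le _ _ _ _ _ _ _ _ _).trans ?_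
    have e1 := card_X2_X2 n
    have e2 : (dl 1 (iv U) (iv U)).card ≤ 2 * U - 1 := by
      have := (Finset.card_le_card (iv_add U U)).trans (card_iv _).le
      have e4 : U + U - 1 = 2 * U - 1 := by omega
      rwa [e4] at this
    have e3 := card_Z_Z l q 2 2
    exact Nat.mul_le_mul e1 (Nat.mul_le_mul e2 e3)
  have c23 : (dl 1 (A2 n l q U) (A3 n l q U)).card ≤ 3 ^ n * (U * (q + 1) ^ l) := by
    refine (card3_le _ _ _ _ _ _ _ _ _).trans ?_
    have e1 := card_X2_X2 n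
    have e2 : (dl 1 (iv U) ({0} : Finset ℤ)).card ≤ U := by
      refine (card_dl_le _ _ _).trans ?_
      simp [card_iv]
    have e3 := card_Z_Z l q 2 q
    have e4 : 2 + q - 1 = q + 1 := by omega
    rw [e4] at e3
    exact Nat.mul_le_mul e1 (Nat.mul_le_mul e2 e3)
  have c33 : (dl 1 (A3 n l q U) (A3 n l q U)).card ≤ 3 ^ n * (2 * q - 1) ^ l := by
    refine (card3_le _ _ _ _ _ _ _ _ _).trans ?_
    have e1 := card_X2_X2 n
    have e2 : (dl 1 ({0} : Finset ℤ) {0}).card = 1 := by rw [dl_zero_zero]; simp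
    have e3 := card_Z_Z l q q q
    rw [e2, one_mul]
    have e4 : q + q - 1 = 2 * q - 1 := by omega
    rw [e4] at e3
    exact Nat.mul_le_mul e1 e3
  have hsub : dl 1 (AA n l a q U) (AA n l a q U) ⊆
      ((((dl 1 (A1 n l a q U) (A1 n l a q U) ∪ dl 1 (A1 n l a q U) (A2 n l q U)) ∪
        dl 1 (A1 n l a q U) (A3 n l q U)) ∪ dl 1 (A2 n l q U) (A2 n l q U)) ∪
        dl 1 (A2 n l q U) (A3 n l q U)) ∪ dl 1 (A3 n l q U) (A3 n l q U) := by
    intro z hz
    obtain ⟨x, hx, y, hy, rfl⟩ := mem_dl.1 hz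
    have hxy : x + 1 * y = y + 1 * x := by ring
    unfold AA at hx hy
    simp only [Finset.mem_union] at hx hy ⊢
    rcases hx with (hx | hx) | hx <;> rcases hy with (hy | hy) | hy
    · exact Or.inl (Or.inl (Or.inl (Or.inl (Or.inl (mem_dl.2 ⟨x, hx, y, hy, rfl⟩)))))
    · exact Or.inl (Or.inl (Or.inl (Or.inl (Or.inr (mem_dl.2 ⟨x, hx, y, hy, rfl⟩)))))
    · exact Or.inl (Or.inl (Or.inl (Or.inr (mem_dl.2 ⟨x, hx, y, hy, rfl⟩))))
    · exact Or.inl (Or.inl (Or.inl (Or.inl (Or.inr (mem_dl.2 ⟨y, hy, x, hx, hxy.symm⟩)))))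
    · exact Or.inl (Or.inl (Or.inr (mem_dl.2 ⟨x, hx, y, hy, rfl⟩)))
    · exact Or.inl (Or.inr (mem_dl.2 ⟨x, hx, y, hy, rfl⟩))
    · exact Or.inl (Or.inl (Or.inl (Or.inr (mem_dl.2 ⟨y, hy, x, hx, hxy.symm⟩))))
    · exact Or.inl (Or.inr (mem_dl.2 ⟨y, hy, x, hx, hxy.symm⟩))
    · exact Or.inr (mem_dl.2 ⟨x, hx, y, hy, rfl⟩)
  refine (Finset.card_le_card hsub).trans ?_
  unfold ub
  refine (Finset.card_union_le _ _).trans (Nat.add_le_add ?_ c33)
  refine (Finset.card_union_le _ _).trans (Nat.add_le_add ?_ c23)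
  refine (Finset.card_union_le _ _).trans (Nat.add_le_add ?_ c22)
  refine (Finset.card_union_le _ _).trans (Nat.add_le_add ?_ c13)
  exact (Finset.card_union_le _ _).trans (Nat.add_le_add c11 c12)

end construction

theorem final_bound (n l a q U c d : ℕ) (hU : 0 < U) (ha : a ≤ 2 * q)
    (h : ub n l a q U ^ (c + d) < (4 ^ n * a ^ l) ^ c * (4 ^ n * (U * (2 * q) ^ l)) ^ d) :
    dsize (ind (AA n l a q U)) 1 ^ (c + d) <
      mass (ind (AA n l a q U)) ^ c * dsize (ind (AA n l a q U)) 2 ^ d := by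
  rw [dsize_ind, dsize_ind, mass_ind]
  have h1 := card_AA_upper n l a q U
  have h2 := card_AA_lower n l a q U hU ha
  have h3 := card_dl_AA_lower n l a q U
  have h4 := (Nat.pow_le_pow_left h1 (c + d)).trans_lt
    (h.trans_le (Nat.mul_le_mul (Nat.pow_le_pow_left h2 c) (Nat.pow_le_pow_left h3 d)))
  exact_mod_cast h4

theorem numeric_nine : ub 800 60 2500 10000 (10 ^ 42) ^ (5 + 4) <
    (4 ^ 800 * 2500 ^ 60) ^ 5 * (4 ^ 800 * (10 ^ 42 * (2 * 10000) ^ 60)) ^ 4 := by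
  decide +kernel

theorem numeric_two : ub 800 60 2500 10000 (10 ^ 42) ^ (1 + 1) <
    (4 ^ 800 * 2500 ^ 60) ^ 1 * (4 ^ 800 * (10 ^ 42 * (2 * 10000) ^ 60)) ^ 1 := by
  decide +kernel

/-- There is a finite set `A` of integers whose indicator function `α` satisfies
`‖α + α‖ ^ 2 < ‖α‖ * ‖α + 2·α‖`, and even `‖α + α‖ ^ 9 < ‖α‖ ^ 5 * ‖α + 2·α‖ ^ 4`. -/
theorem result : ∃ A : Finset ℤ,
    dsize (ind A) 1 ^ 2 < mass (ind A) * dsize (ind A) 2 ∧
    dsize (ind A) 1 ^ 9 < mass (ind A) ^ 5 * dsize (ind A) 2 ^ 4 := by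
  refine ⟨AA 800 60 2500 10000 (10 ^ 42), ?_, ?_⟩
  · have h := final_bound 800 60 2500 10000 (10 ^ 42) 1 1 (by norm_num) (by norm_num) numeric_two
    rw [pow_one, pow_one] at h
    exact h
  · exact final_bound 800 60 2500 10000 (10 ^ 42) 5 4 (by norm_num) (by norm_num) numeric_nine

end Pool.Agent.Results.MP_288d1b_co.DilateExponent
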